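import Mathlib

set_option autoImplicit false

namespace Pool.Agent.Results.MP_aa79fc_nt.Symm

open Finset

inductive Letter
  | x | y | z
  deriving DecidableEq

/-- the factor of a letter at summation variable `n` with counters `a`, `b` -/
def wt {K : Type} [Field K] (q : K) (N : ℕ) (c : Letter) (n a b : ℕ) : K :=
  match c with
  | Letter.x => 1 / (1 - q ^ (n + a))
  | Letter.y => -1 / (1 - q ^ ((n : ℤ) - N - b))
  | Letter.z => 1 / (1 - q ^ (n + a)) - 1 / (1 - q ^ ((n : ℤ) - N - b))

/-- nested sum over `lo ≤ n_1 ≤ ... ≤ n_k ≤ N`; `a` is the number of letters `y` already read -/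
def nested {K : Type} [Field K] (q : K) (N : ℕ) : List Letter → ℕ → ℕ → K
  | [], _, _ => 1
  | c :: v, a, lo => ∑ n ∈ Icc lo N,
      wt q N c n (a + [c].count Letter.y) ((c :: v).count Letter.x) *
        nested q N v (a + [c].count Letter.y) n

def Z {K : Type} [Field K] (q : K) (N : ℕ) (w : List Letter) : K := nested q N w 0 0

variable {K : Type} [Field K]

lemma dbl (α β : ℕ → ℕ → ℕ → K) (s0 t0 : ℕ) (h0 : ∀ s t, s0 ≤ s → t0 ≤ t → α 0 s t = β 0 s t)
    (h1 : ∀ k s t, s0 ≤ s → t0 ≤ t →
      α (k + 1) s t - α k s (t + 1) = β (k + 1) s t - β k (s + 1) t) (k : ℕ) :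
    ∀ s t, s0 ≤ s → t0 ≤ t →
      ∑ i ∈ range (k + 1), α (k - i) (s + i) t = ∑ i ∈ range (k + 1), β i s (t + (k - i)) := by
  have hA : ∀ k s t, ∑ i ∈ range (k + 1 + 1), α (k + 1 - i) (s + i) t =
      α (k + 1) s t + ∑ i ∈ range (k + 1), α (k - i) (s + 1 + i) t := by
    intro k s t
    rw [sum_range_succ', add_comm]
    congr 1
    refine sum_congr rfl fun i _ => ?_
    congr 1 <;> omega
  have hB : ∀ k s t, ∑ i ∈ range (k + 1 + 1), β i s (t + (k + 1 - i)) =
      β (k + 1) s t + ∑ i ∈ range (k + 1), β i s (t + 1 + (k - i)) := by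
    intro k s t
    rw [sum_range_succ, add_comm]
    congr 1
    · simp
    · refine sum_congr rfl fun i hi => ?_
      have := mem_range.1 hi
      congr 1; omega
  induction k using Nat.twoStepInduction with
  | zero => intro s t hs ht; simpa using h0 s t hs ht
  | one =>
    intro s t hs ht
    have e1 := h1 0 s t hs ht
    have e2 := h0 (s + 1) t (by omega) ht
    have e3 := h0 s (t + 1) hs (by omega)
    simp only [sum_range_succ, range_zero, sum_empty, zero_add, add_zero, Nat.sub_zero,
      Nat.sub_self] at *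
    linear_combination e1 + e2 + e3
  | more k ih1 ih2 =>
    intro s t hs ht
    rw [hA, hB, ih2 (s + 1) t (by omega) ht, ← ih2 s (t + 1) hs (by omega), hA, hB,
      ih1 (s + 1) (t + 1) (by omega) (by omega)]
    linear_combination h1 (k + 1) s t hs ht

def P (p : K) (s k : ℕ) : K := ∏ i ∈ range k, (1 - p ^ (s + i))

def G (p : K) (k s t : ℕ) : K := p ^ (s * t) * ∑ j ∈ range (k + 1), P p s j * P p t j * p ^ j / P p 1 j

lemma P_succ (p : K) (s k : ℕ) : P p s (k + 1) = P p s k * (1 - p ^ (s + k)) := prod_range_succ _ _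

lemma P_succ' (p : K) (s k : ℕ) : P p s (k + 1) = (1 - p ^ s) * P p (s + 1) k := by
  unfold P
  rw [prod_range_succ', mul_comm]
  congr 1
  refine prod_congr rfl fun i _ => ?_
  congr 2; omega

lemma G_symm (p : K) (k s t : ℕ) : G p k s t = G p k t s := by
  unfold G
  rw [mul_comm s t]
  congr 1
  exact sum_congr rfl fun j _ => by ring

lemma G_zero (p : K) (s t : ℕ) : G p 0 s t = p ^ (s * t) := by simp [G, P]

lemma G_left (p : K) (k t : ℕ) : G p k 0 t = 1 := by
  unfold G
  rw [sum_range_succ', sum_eq_zero]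
  · simp [P]
  · intro j _
    rw [P_succ']; simp

variable {p : K}

lemma P_ne (hp : ∀ n, 1 ≤ n → 1 - p ^ n ≠ 0) (k : ℕ) : P p 1 k ≠ 0 :=
  prod_ne_zero_iff.2 fun i _ => hp _ (by omega)

lemma G_diff (hp : ∀ n, 1 ≤ n → 1 - p ^ n ≠ 0) (k s t : ℕ) :
    G p (k + 1) s t - G p k s (t + 1) =
      p ^ (s * t) * (P p s (k + 1) * P p (t + 1) (k + 1) / P p 1 (k + 1)) := by
  have key : ∀ k, ∑ j ∈ range (k + 1), P p s j * P p t j * p ^ j / P p 1 j -
      p ^ s * ∑ j ∈ range k, P p s j * P p (t + 1) j * p ^ j / P p 1 j =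
      P p s k * P p (t + 1) k / P p 1 k := by
    intro k
    induction k with
    | zero => simp [P]
    | succ k ih =>
      rw [sum_range_succ, sum_range_succ (fun j => P p s j * P p (t + 1) j * p ^ j / P p 1 j) k,
        P_succ' p t k, P_succ, P_succ, P_succ]
      have h1 := P_ne hp k
      have h2 := hp (1 + k) (by omega)
      have e : ∀ A B C D : K, A - B = C → A + D - (B + p ^ s * (C * p ^ k)) = C + D - p ^ s * (C * p ^ k) := by
        intro A B C D h; linear_combination h
      rw [mul_add, show P p s k * P p (t + 1) k * p ^ k / P p 1 k =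
        P p s k * P p (t + 1) k / P p 1 k * p ^ k by ring, e _ _ _ _ ih]
      field_simp
      ring
  unfold G
  rw [← key (k + 1), mul_add s t 1, pow_add, mul_one]
  ring

lemma G_diff' (hp : ∀ n, 1 ≤ n → 1 - p ^ n ≠ 0) (k s t : ℕ) :
    G p (k + 1) s t - G p k (s + 1) t =
      p ^ (s * t) * (P p (s + 1) (k + 1) * P p t (k + 1) / P p 1 (k + 1)) := by
  rw [G_symm p (k + 1), G_symm p k, G_diff hp, mul_comm t s]; ring

lemma trX (hp : ∀ n, 1 ≤ n → 1 - p ^ n ≠ 0) (k s t : ℕ) (hs : 1 ≤ s) :
    ∑ i ∈ range (k + 1), -p ^ (s + i) / (1 - p ^ (s + i)) * G p (k - i) (s + i) t =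
      ∑ i ∈ range (k + 1), -1 / (1 - p ^ (s + i)) * G p i s (t + (k - i) + 1) := by
  refine dbl (fun k s t => -p ^ s / (1 - p ^ s) * G p k s t)
    (fun k s t => -1 / (1 - p ^ (s + k)) * G p k s (t + 1)) 1 0 ?_ ?_ k s t hs (Nat.zero_le _)
  · intro s t _ _
    simp only [G_zero, add_zero]; ring
  · intro k s t hs _
    have e1 := G_diff hp k s t
    have e2 := G_diff' hp k s (t + 1)
    have e3 := (P_succ p s (k + 1)).symm.trans (P_succ' p s (k + 1))
    have h1 := hp s hs
    have h2 := hp (s + (k + 1)) (by omega)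
    have h3 := P_ne hp (k + 1)
    rw [show s + 1 + k = s + (k + 1) by ring, ← mul_sub, ← mul_sub, e1, e2]
    field_simp
    linear_combination (p ^ (s * t) * p ^ s * P p (t + 1) (k + 1)) * e3.symm

lemma trY (hp : ∀ n, 1 ≤ n → 1 - p ^ n ≠ 0) (k s t : ℕ) (ht : 1 ≤ t) :
    ∑ i ∈ range (k + 1), -1 / (1 - p ^ (t + (k - i))) * G p (k - i) (s + i + 1) t =
      ∑ i ∈ range (k + 1), -p ^ (t + (k - i)) / (1 - p ^ (t + (k - i))) * G p i s (t + (k - i)) := by
  have := trX hp k t s ht
  rw [← sum_range_reflect _ (k + 1), ← sum_range_reflect (fun i => -1 / (1 - p ^ (t + i)) * _)] at this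
  refine Eq.trans ?_ (this.symm.trans ?_)
  · refine sum_congr rfl fun i hi => ?_
    have := mem_range.1 hi
    rw [G_symm, show k + 1 - 1 - i = k - i by omega, show k - (k - i) = i by omega]
  · refine sum_congr rfl fun i hi => ?_
    have := mem_range.1 hi
    rw [G_symm, show k + 1 - 1 - i = k - i by omega, show k - (k - i) = i by omega]

lemma trZ (hp : ∀ n, 1 ≤ n → 1 - p ^ n ≠ 0) (k s t : ℕ) (hs : 1 ≤ s) (ht : 1 ≤ t) :
    ∑ i ∈ range (k + 1), (1 - 1 / (1 - p ^ (s + i)) - 1 / (1 - p ^ (t + (k - i)))) *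
      G p (k - i) (s + i) t =
    ∑ i ∈ range (k + 1), (1 - 1 / (1 - p ^ (s + i)) - 1 / (1 - p ^ (t + (k - i)))) *
      G p i s (t + (k - i)) := by
  refine dbl (fun k s t => (1 - 1 / (1 - p ^ s) - 1 / (1 - p ^ (t + k))) * G p k s t)
    (fun k s t => (1 - 1 / (1 - p ^ (s + k)) - 1 / (1 - p ^ t)) * G p k s t) 1 1 ?_ ?_ k s t hs ht
  · intro s t _ _
    simp only [add_zero]
  · intro k s t hs ht
    have e1 := G_diff hp k s t
    have e2 := G_diff' hp k s t
    have e3 := (P_succ p s (k + 1)).symm.trans (P_succ' p s (k + 1))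
    have e4 := (P_succ p t (k + 1)).symm.trans (P_succ' p t (k + 1))
    have h1 := hp s hs
    have h2 := hp (s + (k + 1)) (by omega)
    have h3 := P_ne hp (k + 1)
    have h4 := hp t ht
    have h5 := hp (t + (k + 1)) (by omega)
    rw [show s + 1 + k = s + (k + 1) by ring, show t + 1 + k = t + (k + 1) by ring, ← mul_sub,
      ← mul_sub, e1, e2]
    have e5 : P p (s + 1) (k + 1) = P p s (k + 1) * (1 - p ^ (s + (k + 1))) / (1 - p ^ s) := by
      rw [e3]; field_simp
    have e6 : P p (t + 1) (k + 1) = P p t (k + 1) * (1 - p ^ (t + (k + 1))) / (1 - p ^ t) := by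
      rw [e4]; field_simp
    rw [e5, e6]
    field_simp
    ring

lemma transport (hp0 : p ≠ 0) (hp : ∀ n, 1 ≤ n → 1 - p ^ n ≠ 0) (N : ℕ) (c : Letter)
    (a b n r : ℕ) (hr : r ≤ N) (hn : n ≤ r) (ha : c ≠ Letter.y → 1 ≤ a) (hb : c ≠ Letter.x → 1 ≤ b) :
    ∑ m ∈ Icc n r, wt p⁻¹ N c m (a + [c].count Letter.y) (b + [c].count Letter.x) *
      G p (r - m) (m + (a + [c].count Letter.y)) (N - r + b) =
    ∑ m ∈ Icc n r, - wt p N c m (a + [c].count Letter.y) (b + [c].count Letter.x) *
      G p (m - n) (n + a) (N - m + (b + [c].count Letter.x)) := by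
  obtain ⟨k, rfl⟩ : ∃ k, r = n + k := ⟨r - n, by omega⟩
  obtain ⟨l, rfl⟩ : ∃ l, N = n + k + l := ⟨N - (n + k), by omega⟩
  have hI : ∀ f : ℕ → K, ∑ m ∈ Icc n (n + k), f m = ∑ i ∈ range (k + 1), f (n + i) := by
    intro f
    rw [← Ico_add_one_right_eq_Icc, sum_Ico_eq_sum_range]
    congr 2; omega
  have hz : ∀ (u : K) (i b : ℕ), i < k + 1 → u ^ (((n + i : ℕ) : ℤ) - (n + k + l : ℕ) - b) =
      u⁻¹ ^ (l + b + (k - i)) := by
    intro u i b hi
    rw [inv_pow, ← zpow_natCast, ← zpow_neg]
    congr 1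
    omega
  have hinv : ∀ j, 1 ≤ j → 1 / (1 - p⁻¹ ^ j) = -p ^ j / (1 - p ^ j) := by
    intro j hj
    have h1 := hp j hj
    have h2 : p ^ j - 1 ≠ 0 := fun e => h1 (by linear_combination -e)
    rw [inv_pow]; field_simp; ring
  rw [hI, hI]
  cases c with
  | x =>
    have ha := ha (by decide)
    refine Eq.trans ?_ ((trX hp k (n + a) (l + b) (by omega)).trans ?_) <;>
      refine sum_congr rfl fun i hi => ?_ <;> have hi := mem_range.1 hi
    · simp only [wt, List.count_singleton, beq_iff_eq, reduceCtorEq, if_false, add_zero]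
      rw [hinv _ (by omega), show n + a + i = n + i + a by ring]
      congr 2 <;> omega
    · simp only [wt, List.count_singleton, beq_iff_eq, reduceCtorEq, if_false, add_zero, if_true]
      rw [show n + a + i = n + i + a by ring, neg_div]
      congr 2 <;> omega
  | y =>
    have hb := hb (by decide)
    refine Eq.trans ?_ ((trY hp k (n + a) (l + b) (by omega)).trans ?_) <;>
      refine sum_congr rfl fun i hi => ?_ <;> have hi := mem_range.1 hi
    · simp only [wt, List.count_singleton, beq_iff_eq, reduceCtorEq, if_false, add_zero, if_true]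
      rw [hz _ _ _ hi, inv_inv]
      congr 2 <;> omega
    · simp only [wt, List.count_singleton, beq_iff_eq, reduceCtorEq, if_false, add_zero, if_true]
      rw [hz _ _ _ hi, neg_div _ (1 : K), neg_neg, hinv _ (by omega)]
      congr 2 <;> omega
  | z =>
    have ha := ha (by decide)
    have hb := hb (by decide)
    refine Eq.trans ?_ ((trZ hp k (n + a) (l + b) (by omega) (by omega)).trans ?_) <;>
      refine sum_congr rfl fun i hi => ?_ <;> have hi := mem_range.1 hi
    · simp only [wt, List.count_singleton, beq_iff_eq, reduceCtorEq, if_false, add_zero]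
      rw [hz _ _ _ hi, inv_inv, hinv _ (by omega), show n + a + i = n + i + a by ring]
      have h1 := hp (n + i + a) (by omega)
      congr 1
      · field_simp; ring
      · congr 1 <;> omega
    · simp only [wt, List.count_singleton, beq_iff_eq, reduceCtorEq, if_false, add_zero]
      rw [hz _ _ _ hi, hinv _ (by omega), show n + a + i = n + i + a by ring]
      have h1 := hp (l + b + (k - i)) (by omega)
      congr 1
      · field_simp; ring
      · congr 1 <;> omega

def Dm (p : K) (N : ℕ) : List Letter → ℕ → ℕ → K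
  | [], _, r => if r = N then 1 else 0
  | c :: v, a, r => (-1) ^ (v.length + 1) *
      (wt p N c r (a + [c].count Letter.y) ((c :: v).count Letter.x) *
        nested p N v (a + [c].count Letter.y) r)

lemma sum_Dm (N : ℕ) (v : List Letter) (a n : ℕ) (hn : n ≤ N) :
    ∑ r ∈ Icc n N, Dm p N v a r = (-1) ^ v.length * nested p N v a n := by
  cases v with
  | nil => simp [Dm, nested, hn]
  | cons c v => simp only [Dm, nested, mul_sum, List.length_cons]

lemma main (hp0 : p ≠ 0) (hp : ∀ n, 1 ≤ n → 1 - p ^ n ≠ 0) (N : ℕ) (v : List Letter) :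
    (v = [] ∨ v.getLast? = some Letter.x) → ∀ a n, n ≤ N → (1 ≤ a ∨ v.head? = some Letter.y) →
      nested p⁻¹ N v a n =
        ∑ r ∈ Icc n N, G p (r - n) (n + a) (N - r + v.count Letter.x) * Dm p N v a r := by
  induction v with
  | nil =>
    intro _ a n hn _
    simp [nested, Dm, hn, G_symm p _ (n + a), G_left]
  | cons c v ih =>
    intro hl a n hn ha
    have hl' : v = [] ∨ v.getLast? = some Letter.x := by
      cases v with
      | nil => exact Or.inl rfl
      | cons d v => right; simpa [List.getLast?_cons_cons] using hl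
    have ha1 : c ≠ Letter.y → 1 ≤ a := fun h => ha.resolve_right (by simpa using h)
    have hb1 : c ≠ Letter.x → 1 ≤ v.count Letter.x := fun h => by
      rcases hl' with rfl | h2
      · simp [h] at hl
      · exact List.count_pos_iff.2 (List.mem_of_getLast? h2)
    have ha2 : 1 ≤ a + [c].count Letter.y := by
      by_cases h : c = Letter.y
      · simp [h]
      · have := ha1 h; omega
    have hc : (c :: v).count Letter.x = v.count Letter.x + [c].count Letter.x := by
      simp [List.count_cons]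
    have swap : ∀ f : ℕ → ℕ → K, ∑ m ∈ Icc n N, ∑ r ∈ Icc m N, f m r =
        ∑ r ∈ Icc n N, ∑ m ∈ Icc n r, f m r := by
      intro f
      exact sum_comm' (by intro m r; simp only [mem_Icc]; omega)
    simp only [nested, Dm, hc]
    rw [sum_congr rfl fun m hm => by
      rw [ih hl' _ m (mem_Icc.1 hm).2 (Or.inl ha2), mul_sum]]
    rw [swap]
    have e : ∀ m ∈ Icc n N, G p (m - n) (n + a) (N - m + (v.count Letter.x + [c].count Letter.x)) *
        ((-1) ^ (v.length + 1) * (wt p N c m (a + [c].count Letter.y)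
          (v.count Letter.x + [c].count Letter.x) * nested p N v (a + [c].count Letter.y) m)) =
        ∑ r ∈ Icc m N, - wt p N c m (a + [c].count Letter.y)
          (v.count Letter.x + [c].count Letter.x) *
          G p (m - n) (n + a) (N - m + (v.count Letter.x + [c].count Letter.x)) *
          Dm p N v (a + [c].count Letter.y) r := by
      intro m hm
      rw [← mul_sum, sum_Dm N v _ m (mem_Icc.1 hm).2]; ring
    rw [sum_congr rfl e, swap]
    refine sum_congr rfl fun r hr => ?_
    rw [← sum_mul, ← transport hp0 hp N c a _ n r (mem_Icc.1 hr).2 (mem_Icc.1 hr).1 ha1 hb1, sum_mul]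
    exact sum_congr rfl fun m _ => by ring

lemma map_nested {L : Type} [Field L] (σ : K →+* L) (q : K) (N : ℕ) (v : List Letter) :
    ∀ a n, σ (nested q N v a n) = nested (σ q) N v a n := by
  induction v with
  | nil => intro a n; simp [nested]
  | cons c v ih =>
    intro a n
    simp only [nested, map_sum, map_mul, ih]
    refine sum_congr rfl fun m _ => ?_
    congr 1
    cases c <;> simp [wt]

lemma both (N : ℕ) (w : List Letter)
    (hw : w = [] ∨ (w.head? = some Letter.y ∧ w.getLast? = some Letter.x)) :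
    Z (RatFunc.X : RatFunc ℚ)⁻¹ N w = (-1) ^ w.length * Z RatFunc.X N w ∧
    ∀ σ : RatFunc ℚ →+* RatFunc ℚ, σ RatFunc.X = RatFunc.X⁻¹ →
      σ (Z RatFunc.X N w) = (-1) ^ w.length * Z RatFunc.X N w := by
  have h : Z (RatFunc.X : RatFunc ℚ)⁻¹ N w = (-1) ^ w.length * Z RatFunc.X N w := by
    rcases hw with rfl | ⟨h1, h2⟩
    · simp [Z, nested]
    · unfold Z
      rw [main RatFunc.X_ne_zero ?_ N w (Or.inr h2) 0 0 (Nat.zero_le _) (Or.inr h1),
        ← sum_Dm N w 0 0 (Nat.zero_le _)]
      · simp [G_left]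
      · intro n hn e
        have e2 : algebraMap (Polynomial ℚ) (RatFunc ℚ) (1 - Polynomial.X ^ n) = 0 := by
          simpa using e
        have e3 := congrArg (Polynomial.eval 0) ((map_eq_zero_iff _ (RatFunc.algebraMap_injective ℚ)).1 e2)
        simp [zero_pow (show n ≠ 0 by omega)] at e3
  exact ⟨h, fun σ hσ => by rw [← h, Z, map_nested, hσ, Z]⟩

theorem result (N : ℕ) (w : List Letter)
    (hw : w = [] ∨ (w.head? = some Letter.y ∧ w.getLast? = some Letter.x)) :
    Z (RatFunc.X : RatFunc ℚ)⁻¹ N w = (-1) ^ w.length * Z RatFunc.X N w := (both N w hw).1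


end Pool.Agent.Results.MP_aa79fc_nt.Symm
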